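import Pool.Agent.helper11.TX.Spec2
import Pool.Agent.helper65.TX.EE
import Pool.Agent.helper90.TX.HC

/-!
# Row tx:HP (MP_bf63dc_nt): one pair of coefficients, the Hardy-Littlewood mass
-/

namespace Pool.Agent.helper11.TX

open Finset

theorem HP_Er (w n : ℕ) (hn : 0 < n) (h : n ≤ w) : Er w n = 1 := by
  unfold Er
  have h1 : n.primeFactors.filter (fun l => w < l) = ∅ := by
    rw [filter_eq_empty_iff]
    intro l hl
    have := Nat.le_of_dvd hn (Nat.dvd_of_mem_primeFactors hl)
    omega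
  rw [h1, prod_empty]

theorem HP (h1 : LP_stmt) (h2 : CL_stmt) (h4 : MP_stmt) : HP_stmt := by
  classical
  intro a b ha hb ε hε
  obtain ⟨c, hc, hMP⟩ := h4
  obtain ⟨w₀, hw₀⟩ := HC_log_sq (12 / (ε * c ^ 2)) (by positivity)
  refine ⟨max w₀ (max 5 (max a b)), fun w hw => ?_⟩
  have hww : w₀ ≤ w := (le_max_left _ _).trans hw
  have hw5 : 5 ≤ w := ((le_max_left _ _).trans (le_max_right _ _)).trans hw
  have hwa : a ≤ w :=
    (((le_max_left _ _).trans (le_max_right _ _)).trans (le_max_right _ _)).trans hw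
  have hwb : b ≤ w :=
    (((le_max_right _ _).trans (le_max_right _ _)).trans (le_max_right _ _)).trans hw
  have hW0 : 0 < primorial w := primorial_pos w
  obtain ⟨M₀, hM₀⟩ := h1 (primorial w) a b hW0 ha hb (ε / 2) (by positivity)
  refine ⟨max M₀ 1, fun M hM u hu => ?_⟩
  have hM1 : 1 ≤ M := (le_max_right _ _).trans hM
  have hLP := hM₀ M ((le_max_left _ _).trans hM) u
  have hEE := EE_sumc w b M u (by omega) hb hM1 hu
  have hMP' := hMP w (by omega)
  have hwr : (5 : ℝ) ≤ w := by exact_mod_cast hw5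
  have hlogw : 0 < Real.log w := Real.log_pos (by linarith)
  -- the comparison of sums
  have hsum : cW (primorial w) * Tw Adm SS a b M u ≤ Tw Adm (Lam (primorial w)) a b M u +
      ∑ c ∈ Ioc ((b : ℤ) * u) ((b : ℤ) * (u + M)) with c ≠ 0, (Er w c.natAbs - 1) := by
    unfold Tw
    rw [mul_sum]
    have e2 : ∑ c ∈ Ioc ((b : ℤ) * u) ((b : ℤ) * (u + M)) with Adm a b c,
          cW (primorial w) * SS a b c
        ≤ ∑ c ∈ Ioc ((b : ℤ) * u) ((b : ℤ) * (u + M)) with Adm a b c,
          (Lam (primorial w) a b c + (Er w c.natAbs - 1)) := by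
      refine sum_le_sum fun c hc => ?_
      have hadm := (mem_filter.mp hc).2
      rw [h2 w a b c (by omega) hadm, HP_Er w a ha hwa, HP_Er w b hb hwb, one_mul, one_mul]
      have f3 := HC_Er_one_le w c.natAbs (by omega)
      have f4 := HC_Lam_le_one (primorial w) a b c
      have f5 := HC_Lam_nonneg (primorial w) a b c
      nlinarith
    refine e2.trans ?_
    rw [sum_add_distrib]
    refine add_le_add_right ?_ _
    refine sum_le_sum_of_subset_of_nonneg (fun c hc => ?_) fun c _ _ => ?_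
    · obtain ⟨g1, g2⟩ := mem_filter.mp hc
      exact mem_filter.mpr ⟨g1, g2.2.2.1⟩
    · have f3 := HC_Er_one_le w c.natAbs (by omega)
      linarith
  have hfin : 3 * (1 / ((w : ℝ) - 1)) ≤ ε / 2 * PW (primorial w) ^ 2 := by
    have g2 : (c / Real.log w) ^ 2 ≤ PW (primorial w) ^ 2 :=
      pow_le_pow_left₀ (by positivity) hMP' 2
    have g4 := hw₀ w hww
    have e3 : 12 * Real.log w ^ 2 ≤ ε * c ^ 2 * w := by
      have := mul_le_mul_of_nonneg_left g4 (by positivity : 0 ≤ ε * c ^ 2)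
      calc 12 * Real.log w ^ 2 = ε * c ^ 2 * (12 / (ε * c ^ 2) * Real.log w ^ 2) := by
            field_simp
        _ ≤ _ := this
    have e4 : 3 * (1 / ((w : ℝ) - 1)) ≤ ε / 2 * (c / Real.log w) ^ 2 := by
      have hw1 : 0 < (w : ℝ) - 1 := by linarith
      have e1 : ε / 2 * (c / Real.log w) ^ 2 = (ε * c ^ 2) / (2 * Real.log w ^ 2) := by
        field_simp
      have e5 : 3 * (1 / ((w : ℝ) - 1)) = 3 / ((w : ℝ) - 1) := by ring
      rw [e1, e5, div_le_div_iff₀ hw1 (by positivity)]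
      have e6 : (w : ℝ) ≤ 2 * (w - 1) := by linarith
      have e7 : ε * c ^ 2 * w ≤ ε * c ^ 2 * (2 * (w - 1)) :=
        mul_le_mul_of_nonneg_left e6 (by positivity)
      nlinarith
    exact e4.trans (mul_le_mul_of_nonneg_left g2 (by positivity))
  have hbM : (0 : ℝ) ≤ b * M := by positivity
  have hfin2 := mul_le_mul_of_nonneg_left hfin hbM
  calc cW (primorial w) * Tw Adm SS a b M u ≤ _ := hsum
    _ ≤ (1 + ε / 2) * (b * M) * PW (primorial w) ^ 2 + 3 * (b * M) * (1 / ((w : ℝ) - 1)) :=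
        add_le_add hLP hEE
    _ ≤ (1 + ε) * (b * M) * PW (primorial w) ^ 2 := by linarith

end Pool.Agent.helper11.TX
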